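import Pool.Agent.N463.MI.Stm

/-!
# Project MI (helper463), part D03: closed forms of geometric cosine sums

By helper7.
-/

set_option autoImplicit false

namespace Pool.Agent.N7.MI

open Pool.Agent.N463.MI
open Finset

theorem hs_congr {f g : ℕ → ℝ} {a b : ℝ} (h : HasSum f a) (hf : ∀ n, g n = f n) (hab : b = a) :
    HasSum g b := by
  have e : g = f := funext hf
  rw [e, hab]
  exact h

/-- the denominator -/
theorem den_pos {r c : ℝ} (h0 : 0 < r) (h1 : r < 1) (hc : c ≤ 1) : 0 < 1 - 2 * r * c + r ^ 2 := by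
  have : 0 < (1 - r) ^ 2 := by
    have : 0 < 1 - r := by linarith
    positivity
  nlinarith

theorem den_cos {r : ℝ} (φ : ℝ) (h0 : 0 < r) (h1 : r < 1) :
    0 < 1 - 2 * r * Real.cos φ + r ^ 2 := den_pos h0 h1 (Real.cos_le_one φ)

theorem r_lt {s : ℝ} (hs : 0 < s) : Real.exp (-s) < 1 := by
  rw [Real.exp_lt_one_iff]
  linarith

theorem kr_eq {s : ℝ} (φ : ℝ) (hs : 0 < s) : kr s φ =
    (1 - Real.exp (-s) ^ 2) / (1 - 2 * Real.exp (-s) * Real.cos φ + Real.exp (-s) ^ 2) := by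
  have h0 := Real.exp_pos (-s)
  have h1 := r_lt hs
  have h2 := den_cos φ h0 h1
  have e1 : Real.exp s = (Real.exp (-s))⁻¹ := by rw [Real.exp_neg, inv_inv]
  unfold kr
  rw [Real.sinh_eq, Real.cosh_eq, e1]
  generalize Real.exp (-s) = r at h0 h1 h2
  generalize Real.cos φ = c at h2
  have h3 : (r⁻¹ + r) / 2 - c = (1 - 2 * r * c + r ^ 2) / (2 * r) := by
    field_simp
    ring
  have h4 : (r⁻¹ - r) / 2 = (1 - r ^ 2) / (2 * r) := by
    field_simp
  rw [h3, h4]
  field_simp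

/-- the geometric series -/
theorem geo {r : ℝ} (φ α : ℝ) (h0 : 0 < r) (h1 : r < 1) :
    HasSum (fun n : ℕ => r ^ n * Real.cos (n * φ + α))
      ((Real.cos α - r * Real.cos (α - φ)) / (1 - 2 * r * Real.cos φ + r ^ 2)) := by
  obtain ⟨z, hz⟩ : ∃ z : ℂ, z = r * Complex.exp (φ * Complex.I) := ⟨_, rfl⟩
  have hnz : ‖z‖ < 1 := by
    rw [hz, norm_mul, Complex.norm_exp_ofReal_mul_I, mul_one, Complex.norm_real,
      Real.norm_of_nonneg h0.le]
    exact h1
  have h2 := (hasSum_geometric_of_norm_lt_one hnz).mul_left (Complex.exp (α * Complex.I))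
  have h3 := Complex.reCLM.hasSum h2
  convert h3 using 1
  · funext n
    simp only [Complex.reCLM_apply]
    have e1 : Complex.exp (α * Complex.I) * z ^ n =
        ((r ^ n : ℝ) : ℂ) * Complex.exp (((n * φ + α : ℝ) : ℂ) * Complex.I) := by
      rw [hz, mul_pow, ← Complex.exp_nat_mul]
      have e2 : (((n * φ + α : ℝ) : ℂ) * Complex.I) =
          (α : ℂ) * Complex.I + (n : ℂ) * ((φ : ℂ) * Complex.I) := by
        push_cast
        ring
      rw [e2, Complex.exp_add]
      push_cast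
      ring
    rw [e1, Complex.re_ofReal_mul, Complex.exp_ofReal_mul_I_re]
  · simp only [Complex.reCLM_apply]
    rw [← div_eq_mul_inv, Complex.div_re]
    have hre : (1 - z).re = 1 - r * Real.cos φ := by
      rw [hz, Complex.sub_re, Complex.one_re, Complex.re_ofReal_mul, Complex.exp_ofReal_mul_I_re]
    have him : (1 - z).im = -(r * Real.sin φ) := by
      rw [hz, Complex.sub_im, Complex.one_im, Complex.im_ofReal_mul, Complex.exp_ofReal_mul_I_im,
        zero_sub]
    have hn : Complex.normSq (1 - z) = 1 - 2 * r * Real.cos φ + r ^ 2 := by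
      rw [Complex.normSq_apply, hre, him]
      have := Real.sin_sq_add_cos_sq φ
      nlinarith
    rw [hn, hre, him, Complex.exp_ofReal_mul_I_re, Complex.exp_ofReal_mul_I_im, ← add_div]
    congr 1
    rw [Real.cos_sub]
    ring

/-- the finite geometric sum -/
theorem fin_geo {r : ℝ} (φ α : ℝ) (h0 : 0 < r) (h1 : r < 1) (K : ℕ) :
    ∑ n ∈ range K, r ^ n * Real.cos (n * φ + α) =
      (Real.cos α - r * Real.cos (α - φ) - r ^ K * (Real.cos (K * φ + α) -
        r * Real.cos (K * φ + α - φ))) / (1 - 2 * r * Real.cos φ + r ^ 2) := by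
  have hN := den_cos φ h0 h1
  rw [eq_div_iff hN.ne']
  induction K with
  | zero => simp
  | succ K ih =>
    rw [sum_range_succ, add_mul, ih]
    have e1 : ((K + 1 : ℕ) : ℝ) * φ + α = (K * φ + α) + φ := by
      push_cast
      ring
    have e2 : (K * φ + α) + φ - φ = K * φ + α := by ring
    rw [e1, e2]
    generalize K * φ + α = β
    have h3 : Real.cos (β + φ) + Real.cos (β - φ) = 2 * Real.cos β * Real.cos φ := by
      rw [Real.cos_add, Real.cos_sub]
      ring
    have h4 : Real.cos (β + φ) = 2 * Real.cos β * Real.cos φ - Real.cos (β - φ) := by linarith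
    rw [h4]
    ring

theorem part1 (s φ : ℝ) (K : ℕ) (hs : 0 < s) :
    HasSum (fun k : ℕ => Real.exp (-(s * |((k : ℝ) + 1) - K|)) * Real.cos ((k + 1 : ℕ) * φ))
    (Real.cos (K * φ) * kr s φ - Real.exp (-(s * K)) * (1 + kr s φ) / 2) := by
  obtain ⟨r, hr⟩ : ∃ r, r = Real.exp (-s) := ⟨_, rfl⟩
  have h0 : 0 < r := by rw [hr]; exact Real.exp_pos _
  have h1 : r < 1 := by rw [hr]; exact r_lt hs
  have hN := den_cos φ h0 h1
  have hpow : ∀ n : ℕ, Real.exp (-(s * n)) = r ^ n := by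
    intro n
    rw [hr, ← Real.exp_nat_mul]
    congr 1
    ring
  have hinf : HasSum (fun n : ℕ => Real.exp (-(s * |(((n + K : ℕ) : ℝ) + 1) - K|)) *
      Real.cos ((n + K + 1 : ℕ) * φ))
      (r * ((Real.cos ((K + 1) * φ) - r * Real.cos ((K + 1) * φ - φ)) /
        (1 - 2 * r * Real.cos φ + r ^ 2))) := by
    have h2 := (geo φ ((K + 1) * φ) h0 h1).mul_left r
    refine hs_congr h2 (fun n => ?_) rfl
    have e1 : |(((n + K : ℕ) : ℝ) + 1) - K| = ((n + 1 : ℕ) : ℝ) := by
      push_cast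
      rw [abs_of_nonneg]
      · ring
      · have : (0 : ℝ) ≤ n := Nat.cast_nonneg n
        linarith
    rw [e1, hpow, pow_succ]
    have e2 : ((n + K + 1 : ℕ) : ℝ) * φ = n * φ + (K + 1) * φ := by
      push_cast
      ring
    rw [e2]
    ring
  have hfin : ∑ i ∈ range K, Real.exp (-(s * |((i : ℝ) + 1) - K|)) * Real.cos ((i + 1 : ℕ) * φ) =
      (Real.cos (-(K * φ)) - r * Real.cos (-(K * φ) - φ) - r ^ K * (Real.cos (K * φ + -(K * φ)) -
        r * Real.cos (K * φ + -(K * φ) - φ))) / (1 - 2 * r * Real.cos φ + r ^ 2) := by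
    rw [← fin_geo φ (-(K * φ)) h0 h1 K, ← sum_range_reflect]
    refine sum_congr rfl fun j hj => ?_
    rw [mem_range] at hj
    obtain ⟨i, hi⟩ : ∃ i, K = i + j + 1 := ⟨K - 1 - j, by omega⟩
    have e1 : K - 1 - j = i := by omega
    rw [e1]
    have e2 : |((i : ℝ) + 1) - K| = (j : ℝ) := by
      rw [hi]
      push_cast
      have : (0 : ℝ) ≤ j := Nat.cast_nonneg j
      rw [show (i : ℝ) + 1 - (i + j + 1) = -j by ring, abs_neg, abs_of_nonneg this]
    rw [e2, hpow]
    congr 1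
    have e3 : ((i + 1 : ℕ) : ℝ) * φ = -((j : ℝ) * φ + -(K * φ)) := by
      rw [hi]
      push_cast
      ring
    rw [e3, Real.cos_neg]
  have h5 := (hasSum_nat_add_iff (f := fun k : ℕ => Real.exp (-(s * |((k : ℝ) + 1) - K|)) *
    Real.cos ((k + 1 : ℕ) * φ)) K).1 hinf
  refine hs_congr h5 (fun n => rfl) ?_
  rw [hfin, kr_eq φ hs, ← hr]
  have e4 : Real.exp (-(s * K)) = r ^ K := hpow K
  rw [e4]
  have e5 : Real.cos (-(K * φ)) = Real.cos (K * φ) := Real.cos_neg _
  have e6 : Real.cos (-(K * φ) - φ) = Real.cos ((K + 1) * φ) := by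
    rw [← Real.cos_neg]
    congr 1
    ring
  have e7 : (K + 1 : ℝ) * φ - φ = K * φ := by ring
  have e8 : (K : ℝ) * φ + -(K * φ) = 0 := by ring
  rw [e5, e6, e7, e8, Real.cos_zero, zero_sub, Real.cos_neg]
  obtain ⟨N, hNN⟩ : ∃ N, N = 1 - 2 * r * Real.cos φ + r ^ 2 := ⟨_, rfl⟩
  rw [← hNN] at hN ⊢
  have hN0 := hN.ne'
  field_simp
  rw [hNN]
  ring

theorem t_D03 : D03 := by
  intro s φ K hs _
  refine ⟨part1 s φ K hs, ?_, ?_, ?_⟩
  · have h := part1 s 0 K hs
    simp only [mul_zero, Real.cos_zero, mul_one, one_mul] at h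
    convert h using 1
    rw [kr_eq 0 hs, Real.cos_zero]
    have h1 := r_lt hs
    have h2 : 1 - Real.exp (-s) ≠ 0 := by linarith
    generalize Real.exp (-s) = r at h1 h2
    have h3 : 1 - 2 * r * 1 + r ^ 2 = (1 - r) ^ 2 := by ring
    rw [h3]
    field_simp
    ring
  · obtain ⟨r, hr⟩ : ∃ r, r = Real.exp (-s) := ⟨_, rfl⟩
    have h0 : 0 < r := by rw [hr]; exact Real.exp_pos _
    have h1 : r < 1 := by rw [hr]; exact r_lt hs
    have h2 : r ^ 2 < 1 := by nlinarith
    have h3 := (geo (2 * φ) φ (by positivity : 0 < r ^ 2) h2).mul_left r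
    refine hs_congr h3 (fun k => ?_) ?_
    · have e1 : Real.exp (-(s * (2 * (k : ℝ) + 1))) = r * (r ^ 2) ^ k := by
        rw [← pow_mul, ← pow_succ', hr, ← Real.exp_nat_mul]
        congr 1
        push_cast
        ring
      have e2 : ((2 * k + 1 : ℕ) : ℝ) * φ = k * (2 * φ) + φ := by
        push_cast
        ring
      rw [e1, e2]
      ring
    · rw [kr_eq φ hs, kr_eq (φ + Real.pi) hs, ← hr, Real.cos_add_pi]
      have e3 : φ - 2 * φ = -φ := by ring
      rw [e3, Real.cos_neg, Real.cos_two_mul]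
      have hc1 := Real.cos_le_one φ
      have hc2 := Real.neg_one_le_cos φ
      generalize Real.cos φ = c at hc1 hc2
      have hN1 := den_pos h0 h1 hc1
      have hN2 : 0 < 1 - 2 * r * (-c) + r ^ 2 := den_pos h0 h1 (by linarith)
      have e4 : 1 - 2 * r ^ 2 * (2 * c ^ 2 - 1) + (r ^ 2) ^ 2 =
          (1 - 2 * r * c + r ^ 2) * (1 - 2 * r * (-c) + r ^ 2) := by ring
      rw [e4]
      obtain ⟨N, hNN⟩ : ∃ N, N = 1 - 2 * r * c + r ^ 2 := ⟨_, rfl⟩
      obtain ⟨N', hNN'⟩ : ∃ N', N' = 1 - 2 * r * (-c) + r ^ 2 := ⟨_, rfl⟩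
      rw [← hNN] at hN1 ⊢
      rw [← hNN'] at hN2 ⊢
      have hN0 := hN1.ne'
      have hN0' := hN2.ne'
      field_simp
      rw [hNN, hNN']
      ring
  · obtain ⟨r, hr⟩ : ∃ r, r = Real.exp (-s) := ⟨_, rfl⟩
    have h0 : 0 < r := by rw [hr]; exact Real.exp_pos _
    have h1 : r < 1 := by rw [hr]; exact r_lt hs
    have h2 : r ^ 2 < 1 := by nlinarith
    have h3 := (hasSum_geometric_of_lt_one (sq_nonneg r) h2).mul_left r
    refine hs_congr h3 (fun k => ?_) ?_
    · rw [← pow_mul, ← pow_succ', hr, ← Real.exp_nat_mul]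
      congr 1
      push_cast
      ring
    · have e1 : Real.exp s = r⁻¹ := by rw [hr, Real.exp_neg, inv_inv]
      rw [Real.sinh_eq, e1, ← hr]
      have h4 : 1 - r ^ 2 ≠ 0 := by nlinarith
      have h5 : r⁻¹ - r ≠ 0 := by
        have : r⁻¹ - r = (1 - r ^ 2) / r := by field_simp
        rw [this]
        exact div_ne_zero h4 h0.ne'
      field_simp

end Pool.Agent.N7.MI
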